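import Pool.Agent.helper52.WP.SpecL

/-!
# Module ADH of project wp: (MP_af9036_an): the normalised differential
-/

set_option autoImplicit false

open Complex Metric Set Filter Topology MeasureTheory
open V3S (UF)
open WP

noncomputable section

namespace WPL

theorem ADH_TT (D : Dat) (z : ℂ) : PPS.TT D.f D.H z = (D.s : ℂ) * PPS.TT D.f D.H0 z := by
  unfold PPS.TT
  rw [← Multiset.sum_map_mul_left]
  refine congrArg Multiset.sum (Multiset.map_congr rfl fun y _ => ?_)
  unfold Dat.H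
  ring

theorem ADH_er (D : Dat) (z : ℂ) : XPS.er D.f D.H z = (D.s : ℂ) * XPS.er D.f D.H0 z := by
  unfold XPS.er
  rw [ADH_TT]
  unfold Dat.H
  ring

theorem ADH_Df (D : Dat) (hs : 0 ≤ D.s) (z : ℂ) : XPS.Df D.f D.H z = D.s * XPS.Df D.f D.H0 z := by
  unfold XPS.Df
  rw [ADH_TT, norm_mul, Complex.norm_real, Real.norm_of_nonneg hs, mul_sub,
    ← Multiset.sum_map_mul_left]
  congr 1
  refine congrArg Multiset.sum (Multiset.map_congr rfl fun y _ => ?_)
  unfold Dat.H
  rw [norm_mul, Complex.norm_real, Real.norm_of_nonneg hs]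
  ring

/-- **ADH**: the normalised differential. -/
theorem ADH (hCB1 : WPC.CB1_stmt) : ADH_stmt := by
  intro n C A D hD
  have hfin : D.PP.Finite := hD.eng.ad.fin
  have hopen : IsOpen (D.PPᶜ) := hfin.isClosed.isOpen_compl
  have hdif : DifferentiableOn ℂ D.H D.PPᶜ := hD.eng.ad.dif.const_mul _
  have hdat : ∀ z, z ∉ D.PP → DifferentiableAt ℂ D.H z := fun z hz =>
    (hdif z hz).differentiableAt (hopen.mem_nhds hz)
  have hs : 0 ≤ D.s := hD.s0.le
  have hB : ∀ x, D.B x = D.sg ^ 2 * D.H (D.zz x) := by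
    have h := hCB1 D hD.rho
    exact h.2.2.2.2.2.2.2.2.2.2.2.2.1
  refine ⟨⟨hD.eng.ad.deg, hfin, hdif⟩, hdat, ?_, ?_⟩
  · intro x hx
    have h1 : DifferentiableAt ℂ D.zz x := by
      unfold Dat.zz
      fun_prop
    have h2 : DifferentiableAt ℂ (fun x => D.H (D.zz x)) x := (hdat _ hx).comp x h1
    have h3 : D.B = fun x => D.sg ^ 2 * D.H (D.zz x) := funext hB
    rw [h3]
    exact h2.const_mul (D.sg ^ 2)
  · have h1 : ∀ z : ℂ, ENNReal.ofReal (XPS.Df D.f D.H z + 2 * ‖XPS.er D.f D.H z‖) =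
        ENNReal.ofReal D.s * ENNReal.ofReal (XPS.Df D.f D.H0 z + 2 * ‖XPS.er D.f D.H0 z‖) := by
      intro z
      rw [← ENNReal.ofReal_mul hs, ADH_Df D hs, ADH_er, norm_mul, Complex.norm_real,
        Real.norm_of_nonneg hs]
      congr 1
      ring
    simp_rw [h1]
    rw [lintegral_const_mul' _ _ ENNReal.ofReal_ne_top]
    calc ENNReal.ofReal D.s * ∫⁻ z in ball (0 : ℂ) D.rad,
          ENNReal.ofReal (XPS.Df D.f D.H0 z + 2 * ‖XPS.er D.f D.H0 z‖)
        ≤ 1 * ENNReal.ofReal D.E := by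
          gcongr
          · exact ENNReal.ofReal_le_one.mpr hD.s1
          · exact hD.eng.hE
      _ = ENNReal.ofReal D.E := one_mul _

end WPL
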