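import Pool.Agent.helper52.WP.SpecT

/-!
# Module BCV of project wp: (MP_af9036_an): bounds of the normalised differential near regular points
-/

set_option autoImplicit false

open Complex Metric Set Filter Topology MeasureTheory
open V3S (UF)
open WP

noncomputable section

namespace WPT

theorem BCV_fin {ι : Type} (F : Filter ι) (P : ι → ℂ → Prop) (K : Set ℂ) (hK : IsCompact K)
    (h : ∀ x ∈ K, ∃ r > (0 : ℝ), ∀ᶠ m in F, ∀ y ∈ ball x r, P m y) : ∀ᶠ m in F, ∀ x ∈ K, P m x := by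
  classical
  choose! r hr0 hr using h
  obtain ⟨t, hcov⟩ := hK.elim_nhds_subcover' (fun x _ => ball x (r x))
    (fun x hx => ball_mem_nhds x (hr0 x hx))
  have h1 : ∀ᶠ m in F, ∀ x ∈ t, ∀ y ∈ ball (x : ℂ) (r x), P m y := by
    rw [Filter.eventually_all_finset]
    intro x _
    exact hr x x.2
  filter_upwards [h1] with m hm x hx
  obtain ⟨y, hy, hxy⟩ := mem_iUnion₂.mp (hcov hx)
  exact hm y hy x hxy

/-- **BCV**. -/
theorem BCV (hLPB : WPL.LPB_stmt) (hREG : WPL.REG_stmt) : BCV_stmt := by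
  intro n C D hC hS hLB K hK hKR
  obtain ⟨hL1, hL2⟩ := hLPB n C D hC hS hLB
  obtain ⟨hO, -, -⟩ := hREG n C D hC hS hLB
  have hKP : K ⊆ (Pin D)ᶜ := fun x hx => (hKR hx).1
  have hRP : Reg D ⊆ (Pin D)ᶜ := fun x hx => hx.1
  have hdR : DifferentiableOn ℂ (Bin D) (Reg D) := hLB.diff.mono hRP
  have hcB : ContinuousOn (Bin D) K := hdR.continuousOn.mono hKR
  have hcD : ContinuousOn (deriv (Bin D)) K := (hdR.deriv hO).continuousOn.mono hKR
  have hdiff : ∀ᶠ m in UF, ∀ x ∈ K, DifferentiableAt ℂ (D m).B x := by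
    refine BCV_fin UF (fun m x => DifferentiableAt ℂ (D m).B x) K hK ?_
    intro x hx
    obtain ⟨r, hr, h⟩ := hL1 x (hKP hx)
    refine ⟨r, hr, ?_⟩
    filter_upwards [h] with m hm y hy
    exact (hm.1 y hy).differentiableAt (isOpen_ball.mem_nhds hy)
  rcases K.eq_empty_or_nonempty with rfl | hne
  · refine ⟨1, one_pos, 0, ?_⟩
    exact Filter.Eventually.of_forall fun m x hx => absurd hx (by simp)
  obtain ⟨x0, hx0, hmin⟩ := hK.exists_isMinOn hne hcB.norm
  obtain ⟨x1, hx1, hmax⟩ := hK.exists_isMaxOn hne hcD.norm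
  have hpos : 0 < ‖Bin D x0‖ := norm_pos_iff.mpr (hKR hx0).2
  have hu1 := Metric.tendstoUniformlyOn_iff.mp (hLB.conv K hK hKP) (‖Bin D x0‖ / 2) (half_pos hpos)
  have hu2 := Metric.tendstoUniformlyOn_iff.mp (hL2 K hK hKP) 1 one_pos
  refine ⟨‖Bin D x0‖ / 2, half_pos hpos, ‖deriv (Bin D) x1‖ + 1, ?_⟩
  filter_upwards [hdiff, hu1, hu2] with m h1 h2 h3 x hx
  refine ⟨h1 x hx, ?_, ?_⟩
  · have h4 : ‖Bin D x0‖ ≤ ‖Bin D x‖ := hmin hx
    have h5 : ‖Bin D x - (D m).B x‖ < ‖Bin D x0‖ / 2 := by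
      have := h2 x hx
      rwa [dist_eq_norm] at this
    have h6 : ‖Bin D x‖ ≤ ‖Bin D x - (D m).B x‖ + ‖(D m).B x‖ := by
      have := norm_add_le (Bin D x - (D m).B x) ((D m).B x)
      simpa using this
    linarith
  · have h4 : ‖deriv (Bin D) x‖ ≤ ‖deriv (Bin D) x1‖ := hmax hx
    have h5 : ‖deriv (Bin D) x - deriv (D m).B x‖ < 1 := by
      have := h3 x hx
      rwa [dist_eq_norm] at this
    have h6 : ‖deriv (D m).B x‖ ≤ ‖deriv (Bin D) x‖ + ‖deriv (Bin D) x - deriv (D m).B x‖ := by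
      have := norm_sub_le (deriv (Bin D) x) (deriv (Bin D) x - deriv (D m).B x)
      simpa using this
    linarith

end WPT
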